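import Pool.Agent.Helper13.HE.St

/-!
Project HE (MP_a1f43d_co): module X5 (five-dimensional subspaces).
-/

set_option autoImplicit false

open Module Classical
open scoped LinearAlgebra.Projectivization

namespace Pool.Agent.Helper87.HE

open Pool.Agent.Helper13.HE Pool.Agent.Helper53.PB

universe u v

private theorem alt {F : Type u} [Field F] [Finite F] {V : Type v} [AddCommGroup V] [Module F V]
    (Q : QuadraticForm F V) {h : ℕ} (hq : Nat.card F = 2 ^ h) (_h1 : 1 ≤ h) (x : V) :
    QuadraticMap.polar Q x x = 0 := by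
  have := Fintype.ofFinite F
  have : Fact (Nat.Prime 2) := ⟨Nat.prime_two⟩
  rw [Nat.card_eq_fintype_card] at hq
  have : CharP F 2 := charP_of_card_eq_prime_pow hq
  have h2 : (2 : F) = 0 := CharTwo.two_eq_zero
  rw [QuadraticMap.polar_self, nsmul_eq_mul]
  push_cast
  rw [h2, zero_mul]

private theorem radl {F : Type u} [Field F] {V : Type v} [AddCommGroup V] [Module F V]
    (Q : QuadraticForm F V) (K : Submodule F V) (a b : V)
    (ha : ∀ x ∈ K, QuadraticMap.polar Q a x = 0) (hb : ∀ x ∈ K, QuadraticMap.polar Q b x = 0) :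
    ∀ w ∈ Submodule.span F {a} ⊔ Submodule.span F {b}, ∀ x ∈ K, QuadraticMap.polar Q w x = 0 := by
  intro w hw x hx
  rw [Submodule.mem_sup] at hw
  obtain ⟨p, hp, r, hr, rfl⟩ := hw
  obtain ⟨c, rfl⟩ := Submodule.mem_span_singleton.mp hp
  obtain ⟨d, rfl⟩ := Submodule.mem_span_singleton.mp hr
  rw [QuadraticMap.polar_add_left, QuadraticMap.polar_smul_left, QuadraticMap.polar_smul_left,
    ha x hx, hb x hx]
  simp

private theorem rank2 {F : Type u} [Field F] {V : Type v} [AddCommGroup V] [Module F V]
    [FiniteDimensional F V] (y z : V) (hy : y ≠ 0) (hz : z ∉ Submodule.span F {y}) :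
    finrank F (Submodule.span F {y} ⊔ Submodule.span F {z} : Submodule F V) = 2 := by
  have hz0 : z ≠ 0 := by rintro rfl; exact hz (Submodule.zero_mem _)
  have hd : Submodule.span F {y} ⊓ Submodule.span F {z} = ⊥ := by
    rw [eq_bot_iff]
    intro x hx
    rw [Submodule.mem_bot]
    by_contra h0
    obtain ⟨c, hc⟩ := Submodule.mem_span_singleton.1 hx.2
    have hc0 : c ≠ 0 := by
      rintro rfl
      rw [zero_smul] at hc
      exact h0 hc.symm
    apply hz
    have : z = c⁻¹ • x := by rw [← hc, smul_smul, inv_mul_cancel₀ hc0, one_smul]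
    rw [this]
    exact Submodule.smul_mem _ _ hx.1
  have h := Submodule.finrank_sup_add_finrank_inf_eq (Submodule.span F {y}) (Submodule.span F {z})
  rw [hd, finrank_bot, finrank_span_singleton hy, finrank_span_singleton hz0] at h
  omega

/-- X5. Five-dimensional subspaces. -/
theorem hX5 (hRKB : StRKB.{u, v}) (hPAR : StPAR.{u, v}) (hCAW : StCAW.{v}) (hDEG : StDEG.{u, v})
    (hCOV : StCOV.{u, v}) : StX5.{u, v} := by
  intro F _ _ V _ _ _ Q T H m h j c K M hK hM
  have hq2 : 2 ≤ Nat.card F := by
    rw [c.hq]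
    calc 2 = 2 ^ 1 := by norm_num
      _ ≤ 2 ^ h := Nat.pow_le_pow_right (by norm_num) c.h1
  have hj := c.hj
  have hcov : (Nat.card F + 1) * (1 + j) ≤ Nat.card F ^ 2 := by
    obtain ⟨e, he⟩ := Nat.exists_eq_add_of_le hj
    have h1 : Nat.card F = j + 2 + e := he
    rw [h1]
    nlinarith
  obtain ⟨y, hyK, hy0, hyr⟩ := hPAR F V Q h c.hq c.h1 K (by rw [hK]; decide)
  have alt' : ∀ x : V, QuadraticMap.polar Q x x = 0 := alt Q c.hq c.h1
  by_cases hc1 : ∃ y' ∈ K, (∀ x ∈ K, QuadraticMap.polar Q y' x = 0) ∧ y' ∉ Submodule.span F {y}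
  · -- two independent radical vectors
    obtain ⟨y', hy'K, hy'r, hy'⟩ := hc1
    set W : Submodule F V := Submodule.span F {y} ⊔ Submodule.span F {y'} with hW
    have hWK : W ≤ K := by
      rw [hW, sup_le_iff, Submodule.span_singleton_le_iff_mem, Submodule.span_singleton_le_iff_mem]
      exact ⟨hyK, hy'K⟩
    have hWr := radl Q K y y' hyr hy'r
    have hW2 : finrank F W = 2 := rank2 y y' hy0 hy'
    obtain ⟨C0, hC0⟩ := Submodule.exists_isCompl W
    set C : Submodule F V := C0 ⊓ K with hC
    have hCK : C ≤ K := inf_le_right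
    have hsup : W ⊔ C = K := by
      rw [hC, ← sup_inf_assoc_of_le _ hWK, hC0.sup_eq_top, top_inf_eq]
    have hinf : W ⊓ C = ⊥ := by
      rw [eq_bot_iff, hC, ← hC0.inf_eq_bot]
      exact inf_le_inf_left _ inf_le_left
    have hC3 : finrank F C = 3 := by
      have := Submodule.finrank_sup_add_finrank_inf_eq W C
      rw [hsup, hinf, finrank_bot, hK, hW2] at this
      omega
    obtain ⟨z, hzC, hz0, hzr⟩ := hPAR F V Q h c.hq c.h1 C (by rw [hC3]; decide)
    have hzr' : ∀ x ∈ K, QuadraticMap.polar Q z x = 0 := by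
      intro x hx
      rw [← hsup, Submodule.mem_sup] at hx
      obtain ⟨p, hp, r, hr, rfl⟩ := hx
      rw [QuadraticMap.polar_add_right, hzr r hr, QuadraticMap.polar_comm, hWr p hp z (hCK hzC),
        add_zero]
    have hzW : z ∉ W := by
      intro h
      have : z ∈ W ⊓ C := ⟨h, hzC⟩
      rw [hinf, Submodule.mem_bot] at this
      exact hz0 this
    have hW3 : finrank F K ≤ finrank F (W ⊔ Submodule.span F {z} : Submodule F V) + 2 := by
      have hlt : W < W ⊔ Submodule.span F {z} := by
        refine lt_of_le_of_ne le_sup_left ?_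
        intro h
        apply hzW
        rw [h]
        exact Submodule.mem_sup_right (Submodule.mem_span_singleton_self _)
      have := Submodule.finrank_lt_finrank_of_lt hlt
      rw [hW2] at this
      omega
    have hW'r : ∀ x ∈ W ⊔ Submodule.span F {z}, ∀ x' ∈ K, QuadraticMap.polar Q x x' = 0 := by
      intro x hx x' hx'
      rw [Submodule.mem_sup] at hx
      obtain ⟨p, hp, r, hr, rfl⟩ := hx
      obtain ⟨d, rfl⟩ := Submodule.mem_span_singleton.mp hr
      rw [QuadraticMap.polar_add_left, QuadraticMap.polar_smul_left, hWr p hp x' hx', hzr' x' hx']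
      simp
    have hW'K : W ⊔ Submodule.span F {z} ≤ K := by
      rw [sup_le_iff, Submodule.span_singleton_le_iff_mem]
      exact ⟨hWK, hCK hzC⟩
    have key := hCOV F V Q T H m h j c (W ⊔ Submodule.span F {z}) K hW'K hW'r hW3
    calc tt T K ≤ Nat.card F ^ 2 := key.trans hcov
      _ ≤ (1 + M) * (Nat.card F ^ 2 + 1) := by nlinarith [Nat.zero_le M]
      _ ≤ _ := Nat.le_add_right _ _
  · -- the radical is spanned by `y`
    push Not at hc1
    have hT0 : ∃ T0 : Finset (ℙ F V), T0 = T.filter (fun P => P.rep ∈ K ∧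
      ∀ R ∈ H, R.rep ∈ K → QuadraticMap.polar Q P.rep R.rep = 0 → R.rep ∈ Submodule.span F {y}) :=
      ⟨_, rfl⟩
    obtain ⟨T0, hT0⟩ := hT0
    have mem0 : ∀ P, P ∈ T0 ↔ P ∈ T ∧ P.rep ∈ K ∧
      ∀ R ∈ H, R.rep ∈ K → QuadraticMap.polar Q P.rep R.rep = 0 →
        R.rep ∈ Submodule.span F {y} := by
      intro P
      rw [hT0, Finset.mem_filter]
    have hdeg : ∀ P ∈ T0, (T0.filter (fun X => X ≠ P ∧
        QuadraticMap.polar Q P.rep X.rep = 0)).card ≤ M := by
      intro P hP
      obtain ⟨hPT, hPK, hPR⟩ := (mem0 P).mp hP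
      have k1 : (T0.filter (fun X => X ≠ P ∧ QuadraticMap.polar Q P.rep X.rep = 0)).card ≤
          (T.filter (fun X => X.rep ∈ K ∧ X ≠ P ∧
            QuadraticMap.polar Q P.rep X.rep = 0)).card := by
        apply Finset.card_le_card
        intro X hX
        rw [Finset.mem_filter] at hX ⊢
        obtain ⟨hX0, hX1, hX2⟩ := hX
        obtain ⟨a1, a2, -⟩ := (mem0 X).mp hX0
        exact ⟨a1, a2, hX1, hX2⟩
      have k2 := hDEG F V Q T H m h j c K P hPT hPK
      have k3 : (H.filter (fun R => R.rep ∈ K ∧
          QuadraticMap.polar Q P.rep R.rep = 0)).card ≤ 1 := by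
        rw [Finset.card_le_one]
        intro R hR R' hR'
        rw [Finset.mem_filter] at hR hR'
        have b1 := hPR R hR.1 hR.2.1 hR.2.2
        have b2 := hPR R' hR'.1 hR'.2.1 hR'.2.2
        obtain ⟨s, hs⟩ := Submodule.mem_span_singleton.mp b2
        have hs0 : s ≠ 0 := by
          rintro rfl
          rw [zero_smul] at hs
          exact R'.rep_nonzero hs.symm
        have hyR : y ∈ Submodule.span F {R'.rep} := by
          rw [Submodule.mem_span_singleton]
          exact ⟨s⁻¹, by rw [← hs, smul_smul, inv_mul_cancel₀ hs0, one_smul]⟩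
        apply eq_of_rep_mem_span
        have : Submodule.span F {y} ≤ Submodule.span F {R'.rep} := by
          rw [Submodule.span_singleton_le_iff_mem]; exact hyR
        exact this b1
      have k4 : ∑ R ∈ H.filter (fun R => R.rep ∈ K ∧ QuadraticMap.polar Q P.rep R.rep = 0), m R ≤
          M := by
        calc ∑ R ∈ H.filter (fun R => R.rep ∈ K ∧ QuadraticMap.polar Q P.rep R.rep = 0), m R
            ≤ (H.filter (fun R => R.rep ∈ K ∧ QuadraticMap.polar Q P.rep R.rep = 0)).card • M := by
              apply Finset.sum_le_card_nsmul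
              intro R hR
              rw [Finset.mem_filter] at hR
              exact hM R hR.1 hR.2.1
          _ ≤ 1 • M := by
              rw [smul_eq_mul, smul_eq_mul]
              exact Nat.mul_le_mul_right _ k3
          _ = M := one_smul _ _
      exact k1.trans (k2.trans k4)
    obtain ⟨I, hI0, hI1, hI2⟩ := (hCAW (ℙ F V) (fun X Y => QuadraticMap.polar Q X.rep Y.rep = 0)
      (fun X Y h => by rw [QuadraticMap.polar_comm]; exact h) T0).2 M hdeg
    have hIc : I.card ≤ 4 ^ h + 1 := by
      refine hRKB F V Q h 4 c.hq c.h1 K y hyK hy0 hyr hK I ?_ ?_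
      · intro P hP
        exact ((mem0 P).mp (hI0 hP)).2.1
      · intro P hP R hR hPR
        exact hI1 P hP R hR hPR
    have h4 : 4 ^ h = Nat.card F ^ 2 := by
      rw [c.hq, ← pow_mul, mul_comm h 2, pow_mul]
      norm_num
    rw [h4] at hIc
    have hT0c : T0.card ≤ (1 + M) * (Nat.card F ^ 2 + 1) :=
      hI2.trans (Nat.mul_le_mul_left _ hIc)
    -- the other points
    have hR : ∀ R ∈ H.filter (fun R => R.rep ∈ K ∧ R.rep ∉ Submodule.span F {y}),
        (T.filter (fun P => P.rep ∈ K ∧ QuadraticMap.polar Q R.rep P.rep = 0)).card ≤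
          Nat.card F ^ 2 := by
      intro R hR
      rw [Finset.mem_filter] at hR
      obtain ⟨hRH, hRK, hRy⟩ := hR
      set g : Dual F V := QuadraticMap.polarBilin Q R.rep with hg
      have hgx : ∀ x, g x = QuadraticMap.polar Q R.rep x := fun x => rfl
      set KR : Submodule F V := K ⊓ LinearMap.ker g with hKR
      have hlt : KR < K := by
        refine lt_of_le_of_ne inf_le_left ?_
        intro he
        apply hRy
        apply hc1 R.rep hRK
        intro x hx
        rw [← he] at hx
        exact hx.2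
      have h4 : finrank F KR ≤ 4 := by
        have := Submodule.finrank_lt_finrank_of_lt hlt
        rw [hK] at this
        omega
      have hyKR : y ∈ KR := ⟨hyK, by
        show g y = 0
        rw [hgx, QuadraticMap.polar_comm]
        exact hyr _ hRK⟩
      have hRKR : R.rep ∈ KR := ⟨hRK, by
        show g R.rep = 0
        rw [hgx]
        exact alt' _⟩
      have hW2 : finrank F (Submodule.span F {y} ⊔ Submodule.span F {R.rep} : Submodule F V) = 2 :=
        rank2 y R.rep hy0 hRy
      have key := hCOV F V Q T H m h j c (Submodule.span F {y} ⊔ Submodule.span F {R.rep}) KR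
        (by
          rw [sup_le_iff, Submodule.span_singleton_le_iff_mem,
            Submodule.span_singleton_le_iff_mem]
          exact ⟨hyKR, hRKR⟩)
        (radl Q KR y R.rep (fun x hx => hyr x hx.1) (fun x hx => hx.2))
        (by rw [hW2]; omega)
      have he : (T.filter (fun P => P.rep ∈ K ∧ QuadraticMap.polar Q R.rep P.rep = 0)).card
          = tt T KR := by
        unfold tt
        congr 1
        ext P
        rw [Finset.mem_filter, Finset.mem_filter, hKR, Submodule.mem_inf, LinearMap.mem_ker, hgx]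
      rw [he]
      exact key.trans hcov
    have hsub : T.filter (fun P => P.rep ∈ K) ⊆ T0 ∪
        (H.filter (fun R => R.rep ∈ K ∧ R.rep ∉ Submodule.span F {y})).biUnion
          (fun R => T.filter (fun P => P.rep ∈ K ∧ QuadraticMap.polar Q R.rep P.rep = 0)) := by
      intro P hP
      rw [Finset.mem_filter] at hP
      rw [Finset.mem_union]
      by_cases hP0 : P ∈ T0
      · exact Or.inl hP0
      · right
        rw [mem0] at hP0
        push Not at hP0
        obtain ⟨R, hRH, hRK, hPR, hRy⟩ := hP0 hP.1 hP.2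
        rw [Finset.mem_biUnion]
        refine ⟨R, Finset.mem_filter.mpr ⟨hRH, hRK, hRy⟩, Finset.mem_filter.mpr ⟨hP.1, hP.2, ?_⟩⟩
        rw [QuadraticMap.polar_comm]
        exact hPR
    have hfin : tt T K ≤ T0.card + H.card * Nat.card F ^ 2 := by
      have k1 : tt T K = (T.filter (fun P => P.rep ∈ K)).card := rfl
      rw [k1]
      refine (Finset.card_le_card hsub).trans ((Finset.card_union_le _ _).trans ?_)
      apply Nat.add_le_add_left
      refine (Finset.card_biUnion_le_card_mul _ _ _ hR).trans ?_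
      exact Nat.mul_le_mul_right _ (Finset.card_filter_le _ _)
    exact hfin.trans (Nat.add_le_add_right hT0c _)

end Pool.Agent.Helper87.HE
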